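import Pool.Agent.H45.ARMain

set_option autoImplicit false

open Pool.Agent.H45.AR

namespace Pool.Agent.Results.MP_eb99da_pr.SumZ

/-- The direct sum of copies of the integers indexed by the integers is not algebraically
recurrent. -/
theorem result : ¬ IsAR (Multiplicative (ℤ →₀ ℤ)) := not_isAR_sum ℤ Equiv.intEquivNat.symm

end Pool.Agent.Results.MP_eb99da_pr.SumZ
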